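import Pool.Agent.H71.EQ.Targets

/-!
Row LPR of the board eqr: large primes.
-/

set_option autoImplicit false

namespace Pool.Agent.H74.EQR

open Pool.Agent.H71.EQ

/-- nonzero multiples of `d` of absolute value at most `R` -/
theorem mult_count (d : ℕ) (hd : 1 ≤ d) (R : ℝ) (hR : 0 ≤ R) :
    {t : ℤ | t ≠ 0 ∧ |(t : ℝ)| ≤ R ∧ (d : ℤ) ∣ t}.Finite ∧
    ({t : ℤ | t ≠ 0 ∧ |(t : ℝ)| ≤ R ∧ (d : ℤ) ∣ t}.ncard : ℝ) ≤ 2 * R / d := by
  have hd0 : (0 : ℝ) < d := by exact_mod_cast hd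
  set q : ℤ := ⌊R / d⌋ with hq
  have hq0 : 0 ≤ q := Int.floor_nonneg.2 (by positivity)
  have hsub : {t : ℤ | t ≠ 0 ∧ |(t : ℝ)| ≤ R ∧ (d : ℤ) ∣ t} ⊆
      ((fun s : ℤ => (d : ℤ) * s) '' (((Finset.Icc (-q) q).erase 0 : Finset ℤ) : Set ℤ)) := by
    rintro t ⟨h1, h2, s, rfl⟩
    refine ⟨s, ?_, rfl⟩
    have hs : |(s : ℝ)| ≤ R / d := by
      rw [le_div_iff₀ hd0]
      have : |(((d : ℤ) * s : ℤ) : ℝ)| = |(s : ℝ)| * d := by
        push_cast
        rw [abs_mul, abs_of_nonneg hd0.le, mul_comm]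
      rwa [this] at h2
    rw [abs_le] at hs
    have h3 : s ≤ q := Int.le_floor.2 hs.2
    have h4 : -s ≤ q := Int.le_floor.2 (by push_cast; linarith)
    simp only [Finset.coe_erase, Finset.coe_Icc, Set.mem_sdiff, Set.mem_Icc,
      Set.mem_singleton_iff]
    refine ⟨⟨by omega, h3⟩, ?_⟩
    rintro rfl
    simp at h1
  have hfin : ((fun s : ℤ => (d : ℤ) * s) ''
      (((Finset.Icc (-q) q).erase 0 : Finset ℤ) : Set ℤ)).Finite :=
    (Finset.finite_toSet _).image _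
  refine ⟨hfin.subset hsub, ?_⟩
  have h1 : {t : ℤ | t ≠ 0 ∧ |(t : ℝ)| ≤ R ∧ (d : ℤ) ∣ t}.ncard ≤ (2 * q).toNat := by
    refine (Set.ncard_le_ncard hsub hfin).trans ?_
    refine (Set.ncard_image_le (Finset.finite_toSet _)).trans ?_
    rw [Set.ncard_coe_finset, Finset.card_erase_of_mem (by simp [hq0]), Int.card_Icc]
    omega
  have h2 : ((2 * q).toNat : ℝ) = 2 * (q : ℝ) := by
    have : (((2 * q).toNat : ℤ) : ℝ) = ((2 * q : ℤ) : ℝ) := by
      rw [Int.toNat_of_nonneg (by omega)]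
    push_cast at this
    exact this
  have h3 : (q : ℝ) ≤ R / d := Int.floor_le _
  calc _ ≤ ((2 * q).toNat : ℝ) := by exact_mod_cast h1
    _ = 2 * (q : ℝ) := h2
    _ ≤ 2 * (R / d) := by linarith
    _ = 2 * R / d := by ring

theorem ext_sum {k : ℕ} (v : Fin k → ℤ) : ∑ i, ext v i = 0 := by
  unfold ext
  rw [Fin.sum_univ_castSucc]
  simp

theorem ext_inj {k : ℕ} {v w : Fin k → ℤ} (h : ext v = ext w) : v = w := by
  funext i
  have := congrFun h i.castSucc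
  simpa [ext] using this

/-- the vectors with entries divisible by given numbers -/
def TT (k : ℕ) (R : ℝ) (d : Fin (k + 1) → ℕ) : Set (Fin k → ℤ) :=
  {v | ∀ i, ext v i ≠ 0 ∧ |(ext v i : ℝ)| ≤ R ∧ (d i : ℤ) ∣ ext v i}

theorem TT_count (k : ℕ) (R : ℝ) (hR : 0 ≤ R) (d : Fin (k + 1) → ℕ) (hd : ∀ i, 1 ≤ d i)
    (c : Fin (k + 1)) :
    (TT k R d).Finite ∧ ((TT k R d).ncard : ℝ) ≤ ∏ i ∈ Finset.univ.erase c, (2 * R / d i) := by
  classical
  let A : ∀ i : {i : Fin (k + 1) // i ≠ c}, Finset ℤ := fun i =>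
    (mult_count (d i.1) (hd i.1) R hR).1.toFinset
  let φ : (Fin k → ℤ) → ({i : Fin (k + 1) // i ≠ c} → ℤ) := fun v i => ext v i.1
  have hmap : ∀ v ∈ TT k R d, φ v ∈ (Fintype.piFinset A : Set _) := by
    intro v hv
    simp only [Finset.mem_coe, Fintype.mem_piFinset]
    intro i
    simp only [A, Set.Finite.mem_toFinset]
    exact hv i.1
  have hinj : Set.InjOn φ (TT k R d) := by
    intro v _ w _ hvw
    apply ext_inj
    have h1 : ∀ i, i ≠ c → ext v i = ext w i := fun i hi => congrFun hvw ⟨i, hi⟩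
    have h2 : ext v c = ext w c := by
      have e1 := ext_sum v
      have e2 := ext_sum w
      rw [← Finset.add_sum_erase _ _ (Finset.mem_univ c)] at e1 e2
      have e3 : ∑ i ∈ Finset.univ.erase c, ext v i = ∑ i ∈ Finset.univ.erase c, ext w i :=
        Finset.sum_congr rfl fun i hi => h1 i (Finset.ne_of_mem_erase hi)
      omega
    funext i
    by_cases hi : i = c
    · rw [hi, h2]
    · exact h1 i hi
  have hfin : (Fintype.piFinset A : Set ({i : Fin (k + 1) // i ≠ c} → ℤ)).Finite :=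
    Finset.finite_toSet _
  refine ⟨Set.Finite.of_injOn hmap hinj hfin, ?_⟩
  have h1 : (TT k R d).ncard ≤ (Fintype.piFinset A).card := by
    rw [← Set.ncard_coe_finset]
    exact Set.ncard_le_ncard_of_injOn φ hmap hinj hfin
  have h2 : ((Fintype.piFinset A).card : ℝ) ≤ ∏ i ∈ Finset.univ.erase c, (2 * R / d i) := by
    rw [Fintype.card_piFinset]
    push_cast
    have h3 : ∏ i ∈ Finset.univ.erase c, (2 * R / (d i : ℝ)) =
        ∏ i : {i : Fin (k + 1) // i ≠ c}, (2 * R / (d i.1 : ℝ)) := by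
      rw [← Finset.prod_subtype (Finset.univ.erase c) (p := fun i => i ≠ c) (by simp)
        (fun i => 2 * R / (d i : ℝ))]
    rw [h3]
    refine Finset.prod_le_prod (fun i _ => by positivity) (fun i _ => ?_)
    have h4 := (mult_count (d i.1) (hd i.1) R hR).2
    rw [Set.ncard_eq_toFinset_card _ (mult_count (d i.1) (hd i.1) R hR).1] at h4
    exact h4
  calc ((TT k R d).ncard : ℝ) ≤ ((Fintype.piFinset A).card : ℝ) := by exact_mod_cast h1
    _ ≤ _ := h2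

/-- two marked entries -/
def d2 {n : ℕ} (a b : Fin n) (p : ℕ) (i : Fin n) : ℕ := if i = a ∨ i = b then p else 1

/-- one marked entry -/
def d1 {n : ℕ} (a : Fin n) (p : ℕ) (i : Fin n) : ℕ := if i = a then p ^ 2 else 1

theorem exists_third {k : ℕ} (hk : 2 ≤ k) (a b : Fin (k + 1)) : ∃ c, c ≠ a ∧ c ≠ b := by
  classical
  have h : ({a, b} : Finset (Fin (k + 1))).card < (Finset.univ : Finset (Fin (k + 1))).card := by
    rw [Finset.card_univ, Fintype.card_fin]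
    have := Finset.card_le_two (a := a) (b := b)
    omega
  obtain ⟨c, -, hc⟩ := Finset.exists_mem_notMem_of_card_lt_card h
  simp only [Finset.mem_insert, Finset.mem_singleton, not_or] at hc
  exact ⟨c, hc⟩

theorem T2_count (k : ℕ) (hk : 2 ≤ k) (R : ℝ) (hR : 0 ≤ R) (p : ℕ) (hp : 1 ≤ p)
    (a b : Fin (k + 1)) (hab : a ≠ b) :
    (TT k R (d2 a b p)).Finite ∧
      ((TT k R (d2 a b p)).ncard : ℝ) ≤ (2 * R) ^ k * ((p : ℝ) ^ 2)⁻¹ := by
  classical
  obtain ⟨c, hca, hcb⟩ := exists_third hk a b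
  have hp0 : (0 : ℝ) < p := by exact_mod_cast hp
  obtain ⟨h1, h2⟩ := TT_count k R hR (d2 a b p) (fun i => by unfold d2; split_ifs <;> omega) c
  refine ⟨h1, h2.trans (le_of_eq ?_)⟩
  have ha : a ∈ Finset.univ.erase c := Finset.mem_erase.2 ⟨hca.symm, Finset.mem_univ _⟩
  have hb : b ∈ (Finset.univ.erase c).erase a :=
    Finset.mem_erase.2 ⟨hab.symm, Finset.mem_erase.2 ⟨hcb.symm, Finset.mem_univ _⟩⟩
  rw [Finset.prod_div_distrib, Finset.prod_const, Finset.card_erase_of_mem (Finset.mem_univ _),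
    Finset.card_univ, Fintype.card_fin, Nat.add_sub_cancel, div_eq_mul_inv]
  congr 2
  rw [← Finset.mul_prod_erase _ _ ha, ← Finset.mul_prod_erase _ _ hb,
    Finset.prod_eq_one (fun i hi => ?_)]
  · simp [d2]
    ring
  · simp only [Finset.mem_erase] at hi
    simp [d2, hi.1, hi.2.1]

theorem T1_count (k : ℕ) (hk : 2 ≤ k) (R : ℝ) (hR : 0 ≤ R) (p : ℕ) (hp : 1 ≤ p)
    (a : Fin (k + 1)) :
    (TT k R (d1 a p)).Finite ∧
      ((TT k R (d1 a p)).ncard : ℝ) ≤ (2 * R) ^ k * ((p : ℝ) ^ 2)⁻¹ := by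
  classical
  obtain ⟨c, hca, -⟩ := exists_third hk a a
  have hp0 : (0 : ℝ) < p := by exact_mod_cast hp
  obtain ⟨h1, h2⟩ := TT_count k R hR (d1 a p)
    (fun i => by unfold d1; split_ifs <;> [exact Nat.one_le_pow _ _ hp; exact le_rfl]) c
  refine ⟨h1, h2.trans (le_of_eq ?_)⟩
  have ha : a ∈ Finset.univ.erase c := Finset.mem_erase.2 ⟨hca.symm, Finset.mem_univ _⟩
  rw [Finset.prod_div_distrib, Finset.prod_const, Finset.card_erase_of_mem (Finset.mem_univ _),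
    Finset.card_univ, Fintype.card_fin, Nat.add_sub_cancel, div_eq_mul_inv]
  congr 2
  rw [← Finset.mul_prod_erase _ _ ha, Finset.prod_eq_one (fun i hi => ?_)]
  · simp [d1]
  · simp only [Finset.mem_erase] at hi
    simp [d1, hi.1]

/-- LPR. -/
theorem pf_LPR : T_LPR := by
  classical
  intro k hk
  refine ⟨2 * ((k : ℝ) + 1) ^ 2 * 2 ^ k, by positivity, ?_⟩
  intro z R hz hR
  have hR0 : (0 : ℝ) ≤ R := by linarith
  -- the index set: pairs, and primes
  let J : Finset (Fin (k + 1) × Fin (k + 1)) := Finset.univ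
  let I : Finset ℕ := Finset.Ioc z ⌊R⌋₊
  let U : ℕ → Fin (k + 1) × Fin (k + 1) → Set (Fin k → ℤ) := fun p ab =>
    (if ab.1 = ab.2 then TT k R (d1 ab.1 p) else TT k R (d2 ab.1 ab.2 p))
  have hU : ∀ p ∈ I, ∀ ab, (U p ab).Finite ∧
      ((U p ab).ncard : ℝ) ≤ (2 * R) ^ k * ((p : ℝ) ^ 2)⁻¹ := by
    intro p hp ab
    have hp1 : 1 ≤ p := by
      have := (Finset.mem_Ioc.1 hp).1
      omega
    simp only [U]
    split_ifs with h
    · exact T1_count k hk R hR0 p hp1 _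
    · exact T2_count k hk R hR0 p hp1 _ _ h
  have hsub : {v : Fin k → ℤ | (∀ i, ext v i ≠ 0 ∧ |(ext v i : ℝ)| ≤ R) ∧
      ∃ p : ℕ, p.Prime ∧ z < p ∧ ¬ Loc p 0 (ext v)} ⊆ ⋃ x ∈ I ×ˢ J, U x.1 x.2 := by
    rintro v ⟨h1, p, hp, hzp, hL⟩
    have hle : ∀ a, (p : ℤ) ∣ ext v a → p ≤ ⌊R⌋₊ := by
      intro a ha
      rw [Nat.le_floor_iff hR0]
      have h2 := Int.le_of_dvd (abs_pos.2 (h1 a).1) ((dvd_abs _ _).2 ha)
      have h3 : (p : ℝ) ≤ |(ext v a : ℝ)| := by exact_mod_cast h2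
      exact h3.trans (h1 a).2
    have hL' : (∃ a b, a ≠ b ∧ (p : ℤ) ∣ ext v a ∧ (p : ℤ) ∣ ext v b) ∨
        ∃ a, (p : ℤ) ^ 2 ∣ ext v a := by
      by_contra hcon
      push Not at hcon
      refine hL ⟨fun a b hab hh => hcon.1 a b hab hh.1 hh.2, ?_⟩
      rw [if_pos rfl]
      exact hcon.2
    rcases hL' with ⟨a, b, hab, ha, hb⟩ | ⟨a, ha⟩
    · refine Set.mem_biUnion (x := (p, (a, b))) ?_ ?_
      · simp only [Finset.coe_product, Set.mem_prod, Finset.mem_coe, I, J, Finset.mem_Ioc,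
          Finset.mem_univ, and_true]
        exact ⟨hzp, hle a ha⟩
      · simp only [U, if_neg hab]
        intro i
        refine ⟨(h1 i).1, (h1 i).2, ?_⟩
        unfold d2
        split_ifs with h
        · rcases h with rfl | rfl
          · exact ha
          · exact hb
        · simp
    · refine Set.mem_biUnion (x := (p, (a, a))) ?_ ?_
      · simp only [Finset.coe_product, Set.mem_prod, Finset.mem_coe, I, J, Finset.mem_Ioc,
          Finset.mem_univ, and_true]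
        exact ⟨hzp, hle a ((dvd_pow_self _ two_ne_zero).trans ha)⟩
      · simp only [U, if_true]
        intro i
        refine ⟨(h1 i).1, (h1 i).2, ?_⟩
        unfold d1
        split_ifs with h
        · subst h
          exact_mod_cast ha
        · simp
  have hfin : (⋃ x ∈ I ×ˢ J, U x.1 x.2).Finite := by
    refine Set.Finite.biUnion (Finset.finite_toSet _) fun x hx => ?_
    rw [Finset.mem_coe, Finset.mem_product] at hx
    exact (hU x.1 hx.1 x.2).1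
  refine ⟨hfin.subset hsub, ?_⟩
  have hcard : ((⋃ x ∈ I ×ˢ J, U x.1 x.2).ncard : ℝ) ≤
      ∑ x ∈ I ×ˢ J, (2 * R) ^ k * ((x.1 : ℝ) ^ 2)⁻¹ := by
    have h1 : (⋃ x ∈ I ×ˢ J, U x.1 x.2).ncard ≤ ∑ x ∈ I ×ˢ J, (U x.1 x.2).ncard :=
      Finset.set_ncard_biUnion_le _ _
    calc ((⋃ x ∈ I ×ˢ J, U x.1 x.2).ncard : ℝ) ≤ ∑ x ∈ I ×ˢ J, ((U x.1 x.2).ncard : ℝ) := by
          exact_mod_cast h1
      _ ≤ _ := Finset.sum_le_sum fun x hx => by
          rw [Finset.mem_product] at hx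
          exact (hU x.1 hx.1 x.2).2
  have hsum : ∑ p ∈ I, ((p : ℝ) ^ 2)⁻¹ ≤ (z : ℝ)⁻¹ := by
    rcases le_total z ⌊R⌋₊ with h | h
    · refine (sum_Ioc_inv_sq_le_sub (by omega) h).trans ?_
      have : (0 : ℝ) ≤ ((⌊R⌋₊ : ℕ) : ℝ)⁻¹ := by positivity
      linarith
    · simp only [I]
      rw [Finset.Ioc_eq_empty_of_le h, Finset.sum_empty]
      positivity
  calc _ ≤ ((⋃ x ∈ I ×ˢ J, U x.1 x.2).ncard : ℝ) := by
        exact_mod_cast Set.ncard_le_ncard hsub hfin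
    _ ≤ ∑ x ∈ I ×ˢ J, (2 * R) ^ k * ((x.1 : ℝ) ^ 2)⁻¹ := hcard
    _ = ((k : ℝ) + 1) ^ 2 * ((2 * R) ^ k * ∑ p ∈ I, ((p : ℝ) ^ 2)⁻¹) := by
        rw [Finset.sum_product, Finset.mul_sum, Finset.mul_sum]
        refine Finset.sum_congr rfl fun p _ => ?_
        simp only [Finset.sum_const, nsmul_eq_mul, J, Finset.card_univ, Fintype.card_prod,
          Fintype.card_fin]
        push_cast
        ring
    _ ≤ ((k : ℝ) + 1) ^ 2 * ((2 * R) ^ k * (z : ℝ)⁻¹) := by gcongr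
    _ ≤ 2 * ((k : ℝ) + 1) ^ 2 * 2 ^ k * R ^ k / z := by
        have hz0 : (0 : ℝ) < z := by exact_mod_cast hz
        rw [mul_pow, div_eq_mul_inv]
        have : 0 ≤ ((k : ℝ) + 1) ^ 2 * (2 ^ k * R ^ k * (z : ℝ)⁻¹) := by positivity
        nlinarith

end Pool.Agent.H74.EQR
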